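import Mathlib

/-!
# Locked chains (MP_e0fe99_lc): definitions

An open polygonal chain with `n` links in 3-space is the tuple of its `n + 1` vertices.
-/

set_option autoImplicit false

namespace Pool.Agent.LCK

/-- Euclidean 3-space -/
abbrev E3 : Type := EuclideanSpace ℝ (Fin 3)

/-- The chain with vertices `v 0, …, v n` is simple: the closed links are pairwise disjoint, except that
consecutive links share exactly their common endpoint. -/
def Simple {n : ℕ} (v : Fin (n + 1) → E3) : Prop :=
  ∀ i j : Fin n, i < j →
    segment ℝ (v i.castSucc) (v i.succ) ∩ segment ℝ (v j.castSucc) (v j.succ) =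
      if (j : ℕ) = (i : ℕ) + 1 then {v i.succ} else ∅

/-- The configuration space of the chain with link lengths `l 0, …, l (n-1)`. -/
def Conf {n : ℕ} (l : Fin n → ℝ) : Set (Fin (n + 1) → E3) :=
  {v | (∀ k : Fin n, dist (v k.castSucc) (v k.succ) = l k) ∧ Simple v}

/-- The chain with link lengths `l` is locked: its configuration space is disconnected. -/
def Locked {n : ℕ} (l : Fin n → ℝ) : Prop := ¬ IsPreconnected (Conf l)

/-- append a link length at the end -/
def ap {n : ℕ} (l : Fin n → ℝ) (e : ℝ) : Fin (n + 1) → ℝ := Fin.snoc (α := fun _ => ℝ) l e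

/-- put a link length at the beginning -/
def pr {n : ℕ} (e : ℝ) (l : Fin n → ℝ) : Fin (n + 1) → ℝ := Fin.cons (α := fun _ => ℝ) e l

end Pool.Agent.LCK
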