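import Pool.Agent.LCK.Defs

/-!
# Locked chains (MP_e0fe99_lc): statements of the rows (table lck), with proofs in the docstrings

THEOREM. If the chain `l` is not locked, then the chain with one more link of length `ε` at either end is
not locked, for all sufficiently small `ε`.  So for every `n` there are `n`-link chains which are not
locked.  Lockedness is preserved by appending a link and by lengthening an end link.
-/

set_option autoImplicit false

open Topology

namespace Pool.Agent.LCK

/-- append a vertex -/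
def av {n : ℕ} (c : Fin (n + 1) → E3) (x : E3) : Fin (n + 2) → E3 := Fin.snoc (α := fun _ => E3) c x

/-- the segment from the last vertex of `c` to `x` is disjoint from the links of `c`, except for the
last vertex, which it shares exactly with the last link -/
def Ok {n : ℕ} (c : Fin (n + 1) → E3) (x : E3) : Prop :=
  ∀ i : Fin n, segment ℝ (c i.castSucc) (c i.succ) ∩ segment ℝ (c (Fin.last n)) x =
    if (i : ℕ) + 1 = n then {c (Fin.last n)} else ∅

/-- covered by finitely many preconnected subsets -/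
def FC {α : Type} [TopologicalSpace α] (S : Set α) : Prop :=
  ∃ F : Set (Set α), F.Finite ∧ (∀ t ∈ F, IsPreconnected t ∧ t ⊆ S) ∧ S ⊆ ⋃₀ F

/-! ## Part 1: real polynomials -/

/-- FCD. Proof: (1) replace every `t ∈ F` by `closure t ∩ S` (`IsPreconnected.subset_closure`); a finite
union of closures is closed, so it contains `closure S' ⊇ S`. (2) `IsPreconnected.image`. -/
def FCDStmt : Prop := ∀ (α β : Type) [TopologicalSpace α] [TopologicalSpace β],
  (∀ S S' : Set α, S' ⊆ S → S ⊆ closure S' → FC S' → FC S) ∧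
  (∀ (S : Set α) (f : α → β), ContinuousOn f S → FC S → FC (f '' S))

/-- PDN. The set where a nonzero polynomial does not vanish is dense. Proof: if it misses an open ball, it
misses a product of open intervals (infinite sets), so the polynomial is zero
(`MvPolynomial.funext_set` or the like). -/
def PDNStmt : Prop := ∀ (m : ℕ) (P : MvPolynomial (Fin m) ℝ), P ≠ 0 →
  Dense {x : Fin m → ℝ | MvPolynomial.eval x P ≠ 0}

/-- the polynomial in one variable with the coefficients specialised at `x` -/
noncomputable def sp {m : ℕ} (q : Polynomial (MvPolynomial (Fin m) ℝ)) (x : Fin m → ℝ) :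
    Polynomial ℝ := q.map (MvPolynomial.eval x)

/-- over `H ≠ 0` the leading coefficient of `q` does not vanish and all real zeros are simple -/
def Good {m : ℕ} (H : MvPolynomial (Fin m) ℝ) (q : Polynomial (MvPolynomial (Fin m) ℝ)) : Prop :=
  ∀ x : Fin m → ℝ, MvPolynomial.eval x H ≠ 0 → MvPolynomial.eval x q.leadingCoeff ≠ 0 ∧
    ∀ t : ℝ, (sp q x).eval t = 0 → (sp q x).derivative.eval t ≠ 0

/-- the points over `H ≠ 0` where `q` does not vanish -/
def WW {m : ℕ} (H : MvPolynomial (Fin m) ℝ) (q : Polynomial (MvPolynomial (Fin m) ℝ)) :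
    Set (Fin (m + 1) → ℝ) :=
  {y | MvPolynomial.eval (fun i => y i.succ) H ≠ 0 ∧ (sp q (fun i => y i.succ)).eval (y 0) ≠ 0}

/-- SQF. Algebra. Proof: let `R = MvPolynomial (Fin m) ℝ`, `K` its fraction field, `p_K = p.map ≠ 0`,
`q_K` the squarefree part of `p_K` in `K[t]` (`UniqueFactorizationMonoid.radical`, or divide by the gcd
with the derivative): `q_K` is separable (characteristic zero, `PerfectField.separable_iff_squarefree`),
`a q_K + b q_K' = 1`, and `p_K` divides a power of `q_K`, `q_K ^ N = p_K r`. Clear denominators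
(`IsLocalization.integerNormalization`): there are `q, a', b', r' ∈ R[t]` and `h₁, h₂ ∈ R` nonzero with
`a' q + b' q' = C h₁`, `C h₂ * q ^ N = p * r'`. Take `H = h₁ h₂ (leading coefficient of q)`. -/
def SQFStmt : Prop := ∀ (m : ℕ) (p : Polynomial (MvPolynomial (Fin m) ℝ)), p ≠ 0 →
  ∃ (H : MvPolynomial (Fin m) ℝ) (q : Polynomial (MvPolynomial (Fin m) ℝ)),
    H ≠ 0 ∧ q ≠ 0 ∧ Good H q ∧
    ∀ x : Fin m → ℝ, MvPolynomial.eval x H ≠ 0 → ∀ t : ℝ, (sp q x).eval t ≠ 0 → (sp p x).eval t ≠ 0

/-- LCA. Local triviality. Proof: let `q₁ = sp q x₁`, `Z` its finite set of real zeros. Choose `η > 0` with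
`q₁' ≠ 0` on all the intervals `[r-η, r+η]`, `r ∈ Z`, and these pairwise disjoint (distance of two zeros
`> 2η`). Let `K = {t | ∀ r ∈ Z, η ≤ |t - r|}`; `q₁ ≠ 0` on `K`. For `x` in a small ball `N` around `x₁`
(inside `H ≠ 0`): all zeros of `sp q x` are in `[-T, T]` with a fixed `T` (the coefficients are bounded,
the leading coefficient is bounded below; Cauchy bound `Polynomial.IsRoot.norm_lt_cauchyBound`), so by
compactness of `K ∩ [-T, T]` `sp q x ≠ 0` on `K`; and `(sp q x)' ≠ 0` on the intervals. If `t ∈ K`,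
the segment from `(t, x)` to `(t, x₁)` is in `WW`. If `|t - r| < η` and `sp q x` does not vanish at `t`, it is
strictly monotone on `[r-η, r+η]` (nonvanishing derivative), so it has no zero on `[t, r+η]` or none on
`[r-η, t]`: the vertical segment from `(t, x)` to `(τ, x)`, `τ = r ± η ∈ K`, is in `WW`; then go to
`(τ, x₁)`. The same with the roles of `x` and `x₁` exchanged. -/
def LCAStmt : Prop := ∀ (m : ℕ) (H : MvPolynomial (Fin m) ℝ)
  (q : Polynomial (MvPolynomial (Fin m) ℝ)), Good H q → ∀ x₁ : Fin m → ℝ,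
  MvPolynomial.eval x₁ H ≠ 0 → ∀ᶠ x in 𝓝 x₁,
    (∀ t : ℝ, (sp q x).eval t ≠ 0 → ∃ t₁ : ℝ, (sp q x₁).eval t₁ ≠ 0 ∧
      JoinedIn (WW H q) (Fin.cons t x) (Fin.cons t₁ x₁)) ∧
    (∀ t₁ : ℝ, (sp q x₁).eval t₁ ≠ 0 → ∃ t : ℝ, (sp q x).eval t ≠ 0 ∧
      JoinedIn (WW H q) (Fin.cons t x) (Fin.cons t₁ x₁))

/-- LCB. Induction step (uses LCA). Proof: for `x` with `H x ≠ 0` let
`S x = {connectedComponentIn (WW H q) (Fin.cons t x) | t, sp q x ≠ 0 at t}` (a set of sets). LCA: `S` is
locally constant on `{H ≠ 0}`, hence constant on every preconnected subset (`IsPreconnected.induction₂`).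
`S x` is finite: two parameters `t, t'` with the same set of zeros below them are joined by a segment.
Let `F` be the finite cover of `{H ≠ 0}`; choose a point in every nonempty member; the union of the
finitely many `S` of these points covers `WW H q`. -/
def LCBStmt : Prop := ∀ (m : ℕ) (H : MvPolynomial (Fin m) ℝ)
  (q : Polynomial (MvPolynomial (Fin m) ℝ)), Good H q →
  FC {x : Fin m → ℝ | MvPolynomial.eval x H ≠ 0} → FC (WW H q)

/-- FCP. The set where a real polynomial does not vanish has finitely many components (uses FCD PDN SQF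
LCB). Proof: induction on `m`; `m = 0`: one point. Step: `p = finSuccEquiv P`
(`MvPolynomial.eval_eq_eval_mv_eval'`), SQF gives `H, q`; by induction and LCB `WW H q` is FC; it is
contained in `{P ≠ 0}` and it is the nonvanishing set of the nonzero polynomial
`rename Fin.succ H * (finSuccEquiv).symm q`, hence dense (PDN); FCD (1). -/
def FCPStmt : Prop := ∀ (m : ℕ) (P : MvPolynomial (Fin m) ℝ), P ≠ 0 →
  FC {x : Fin m → ℝ | MvPolynomial.eval x P ≠ 0}

/-- polynomial function -/
def PF {σ : Type} (f : (σ → ℝ) → ℝ) : Prop :=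
  ∃ p : MvPolynomial σ ℝ, ∀ x, f x = MvPolynomial.eval x p

/-- FPF. The same for any finite index set (uses FCP PDN). Proof: `MvPolynomial.rename` along
`Fintype.equivFin σ`, homeomorphism `Homeomorph.piCongrLeft` (or the image of the cover under the
continuous map `x ↦ x ∘ e`). -/
def FPFStmt : Prop := ∀ (σ : Type) [Fintype σ] (f : (σ → ℝ) → ℝ), PF f → (∃ x, f x ≠ 0) →
  FC {x | f x ≠ 0} ∧ Dense {x | f x ≠ 0}

/-! ## Part 2: finiteness of the number of components of the configuration space -/

/-- numerator of the direction -/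
noncomputable def U (a : Fin 3 → ℝ) : E3 :=
  !₂[2 * a 0 * a 2, 2 * a 1 * a 2, a 0 ^ 2 + a 1 ^ 2 - a 2 ^ 2]

/-- denominator of the direction, also the norm of `U a` -/
noncomputable def Q (a : Fin 3 → ℝ) : ℝ := a 0 ^ 2 + a 1 ^ 2 + a 2 ^ 2

/-- rational parametrisation of the chains: `a (0, ·)` is the first vertex, `a (j+1, ·)` gives the
direction `U / Q` of link `j` -/
noncomputable def V {n : ℕ} (l : Fin n → ℝ) (a : Fin (n + 1) × Fin 3 → ℝ) (k : Fin (n + 1)) : E3 :=
  WithLp.toLp 2 (fun i => a (0, i)) + ∑ j : Fin n, if (j : ℕ) < (k : ℕ) then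
    (l j / Q (fun i => a (j.succ, i))) • U (fun i => a (j.succ, i)) else 0

/-- PAR. Proof: `‖U a‖ = Q a`, `Q a ≠ 0` iff `a ≠ 0`; every unit vector `(p, q, r)` is `U a / Q a` with
`a = (p/(1-r), q/(1-r), 1)` if `r ≠ 1` and `a = (1, 0, 0)` if `r = 1`. `V (k+1) - V k = (l k / Q) U`.
Continuity: a finite sum of continuous functions where `Q ≠ 0`. -/
def PARStmt : Prop := ∀ (n : ℕ) (l : Fin n → ℝ), (∀ k, 0 < l k) →
  (∀ v : Fin (n + 1) → E3, (∀ k : Fin n, dist (v k.castSucc) (v k.succ) = l k) →
    ∃ a : Fin (n + 1) × Fin 3 → ℝ, (∀ j : Fin n, Q (fun i => a (j.succ, i)) ≠ 0) ∧ V l a = v) ∧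
  (∀ a : Fin (n + 1) × Fin 3 → ℝ, (∀ j : Fin n, Q (fun i => a (j.succ, i)) ≠ 0) →
    (∀ k : Fin n, V l a k.succ - V l a k.castSucc =
      (l k / Q (fun i => a (k.succ, i))) • U (fun i => a (k.succ, i))) ∧
    (∀ k : Fin n, dist (V l a k.castSucc) (V l a k.succ) = l k) ∧ ContinuousAt (V l) a)

/-- DET. A polynomial certificate for simple chains (uses PAR). Proof: write `U_j`, `Q_j`.
`f = (∏_j Q_j) * ∏_{j, j+1 < n} |U_j × U_(j+1)|² * ∏_{i+1 < j} det (U_i, U_j, ∑_{i<k<j} l_k (∏_{m≠k} Q_m) U_k)`.
If `f a ≠ 0`: two consecutive links have linearly independent directions and meet exactly in the common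
vertex; for `i + 1 < j` a common point gives `s U_i + ∑_{i<k<j} (l_k/Q_k) U_k = t U_j`, so the determinant
(divided by `∏ Q`) is zero. `f` is polynomial (closure under sums and products), and not zero: every
factor is a nonzero polynomial: `U (1,0,1) = (2,0,0)`, `U (0,1,1) = (0,2,0)`, `U (0,0,1) = (0,0,-1)`,
`Q > 0`; for the determinant take the first for `i`, the second for `j`, the third for the others,
`l > 0`. -/
def DETStmt : Prop := ∀ (n : ℕ) (l : Fin n → ℝ), (∀ k, 0 < l k) →
  ∃ f : (Fin (n + 1) × Fin 3 → ℝ) → ℝ, PF f ∧ (∃ a, f a ≠ 0) ∧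
    ∀ a, f a ≠ 0 → (∀ j : Fin n, Q (fun i => a (j.succ, i)) ≠ 0) ∧ Simple (V l a)

/-- FIN. Finitely many components (uses FCD FPF PAR DET). Proof: `S' = {f ≠ 0}` is FC (FPF), so
`V l '' S'` is FC (PAR continuity, FCD (2)), contained in `Conf l`, and dense in it: for `v = V l a ∈ Conf l`
(PAR) approximate `a` by points of the dense set `S'`, `V l` is continuous at `a`. FCD (1). -/
def FINStmt : Prop := ∀ (n : ℕ) (l : Fin n → ℝ), (∀ k, 0 < l k) → FC (Conf l)

/-! ## Part 3: geometry of chains -/

/-- SNC. Appending a vertex. Proof: split the indices of the `n + 1` links into `Fin.castSucc` and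
`Fin.last` (`Fin.lastCases`), `Fin.snoc_castSucc`, `Fin.snoc_last`. Truncation: the segment to
`c_n + r • w` is a part of the segment to `c_n + w` which contains `c_n`. -/
def SNCStmt : Prop := ∀ (n : ℕ),
  (∀ (l : Fin n → ℝ) (e : ℝ) (c : Fin (n + 1) → E3) (x : E3),
    av c x ∈ Conf (ap l e) ↔ c ∈ Conf l ∧ dist (c (Fin.last n)) x = e ∧ Ok c x) ∧
  (∀ v : Fin (n + 2) → E3, av (fun i => v i.castSucc) (v (Fin.last (n + 1))) = v) ∧
  (Continuous fun z : (Fin (n + 1) → E3) × E3 => av z.1 z.2) ∧
  (∀ (c : Fin (n + 1) → E3) (w : E3) (r : ℝ), 0 ≤ r → r ≤ 1 →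
    Ok c (c (Fin.last n) + w) → Ok c (c (Fin.last n) + r • w))

/-- ADJ. Two links with a common vertex. Proof: a common point is `b + s (a - b) = b + t (c - b)`; if
`s > 0` then `t > 0` and the vectors are positive multiples of each other, so the inner product is the
product of the norms (`inner_eq_norm_mul_iff_real`); conversely equality gives
`‖c - b‖ (a - b) = ‖a - b‖ (c - b)` and a common point different from `b`. -/
def ADJStmt : Prop := ∀ a b c : E3, a ≠ b → c ≠ b →
  (segment ℝ a b ∩ segment ℝ b c = {b} ↔ inner ℝ (a - b) (c - b) < ‖a - b‖ * ‖c - b‖)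

/-- OPN. Being simple is an open condition (uses ADJ). Proof: finitely many pairs `i < j`. Non consecutive
links: disjoint compact sets, the function `(v, s, t) ↦` distance of the two points is continuous,
positive on the compact square. Consecutive links: ADJ is an open condition while the links have
positive length. -/
def OPNStmt : Prop := ∀ (n : ℕ) (v : Fin (n + 1) → E3), Simple v →
  (∀ k : Fin n, v k.castSucc ≠ v k.succ) → ∀ᶠ v' in 𝓝 v, Simple v'

/-- LPC. Connected implies path connected (uses OPN). Proof: `IsPreconnected.induction₂` for the relation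
`JoinedIn (Conf l)`. Locally: for `c ∈ Conf l` and `v ∈ Conf l` near `c` interpolate the link vectors and
normalise: `v(s)_0 = (1-s) c_0 + s v_0`, link vector `k` of `v(s)` = `l k • z / ‖z‖` with
`z = (1-s) (c_(k+1) - c_k) + s (v_(k+1) - v_k)`; it depends continuously on `s`, all link lengths are
`l k`, and it is as near to `c` as we want, uniformly in `s`, so it is simple by OPN. -/
def LPCStmt : Prop := ∀ (n : ℕ) (l : Fin n → ℝ), (∀ k, 0 < l k) → IsPreconnected (Conf l) →
  ∀ c ∈ Conf l, ∀ c' ∈ Conf l, JoinedIn (Conf l) c c'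

/-- DEN. Generic directions. Proof: for link `i` let `P_i` be the span of `c_i - c_n`, `c_(i+1) - c_n`, a
subspace `≠ ⊤` (dimension at most 2). The complement of finitely many proper subspaces is dense (each is
closed with empty interior; or of measure zero, `Measure.addHaar_submodule`). Take `w` near `x - c_n`
outside all `P_i`, and `y = c_n + ‖x - c_n‖ w / ‖w‖`, still outside (cones), `y → x` as `w → x - c_n`. If
`c_n + t w'` with `w' ∉ P_i` and `t > 0` were in link `i` then `w' ∈ P_i`; and `c_n` is in link `i` only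
for the last link (simple, positive lengths). Last part: take such a `y` for any `x ≠ c_n`. -/
def DENStmt : Prop := ∀ (n : ℕ) (l : Fin n → ℝ), (∀ k, 0 < l k) → ∀ c ∈ Conf l,
  ∀ (x : E3) (δ : ℝ), x ≠ c (Fin.last n) → 0 < δ →
  ∃ y : E3, ‖y - x‖ < δ ∧ dist (c (Fin.last n)) y = dist (c (Fin.last n)) x ∧
    ∀ t : ℝ, 0 < t → Ok c (c (Fin.last n) + t • (y - c (Fin.last n)))

/-- FIB. The fibre over a configuration whose last vertex is far from the non adjacent links (uses ADJ).
Proof: for `dist c_last x = ε` the segment to `x` is in the closed ball of radius `ε`, so it misses the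
links `i < m`; by ADJ `Ok c x` is the condition `x ≠ c_last + (ε / l_m) (c_m - c_last)`. A sphere in
dimension 3 minus a point is preconnected (stereographic projection `stereographic'`, or rotate in
the plane of two points, or `{y | ⟪y, e⟫ < 1}` on the unit sphere: join everything to `-e` by
`normalize ((1-s) y - s e)`, whose inner product with `e` is `< 1`). The last statement is the antipodal
point. -/
def FIBStmt : Prop := ∀ (m : ℕ) (l : Fin (m + 1) → ℝ), (∀ k, 0 < l k) → ∀ c ∈ Conf l,
  ∀ ε : ℝ, 0 < ε → (∀ i : Fin m, ∀ z ∈ segment ℝ (c i.castSucc.castSucc) (c i.castSucc.succ),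
    ε < dist (c (Fin.last (m + 1))) z) →
  IsPreconnected {x : E3 | dist (c (Fin.last (m + 1))) x = ε ∧ Ok c x} ∧
  Ok c (c (Fin.last (m + 1)) + (ε / l (Fin.last m)) •
    (c (Fin.last (m + 1)) - c (Fin.last m).castSucc))

/-- PTH. Transport of a short last link along a path (uses SNC FIB). Proof: let `γ` be the path. For
`i < m` the function `(s, u) ↦ dist (last vertex of γ s) (the point with parameter u of link i of γ s)`
is continuous and positive on the compact square (simple, positive lengths): let `δ` be the minimum. For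
`0 < ε < δ` the path `s ↦ av (γ s) (straight extension by ε)` is in `Conf (ap l ε)` (FIB, SNC); its
endpoints are in the images of the two preconnected fibres, which contain `av c x` and `av c' x'`. -/
def PTHStmt : Prop := ∀ (m : ℕ) (l : Fin (m + 1) → ℝ), (∀ k, 0 < l k) →
  ∀ c c' : Fin (m + 2) → E3, JoinedIn (Conf l) c c' → ∃ δ : ℝ, 0 < δ ∧ ∀ ε : ℝ, 0 < ε → ε < δ →
  ∀ x x' : E3, av c x ∈ Conf (ap l ε) → av c' x' ∈ Conf (ap l ε) →
  ∃ t ⊆ Conf (ap l ε), IsPreconnected t ∧ av c x ∈ t ∧ av c' x' ∈ t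

/-! ## Part 4: the theorem -/

/-- UPS. Lockedness is preserved by lengthening the last link and by appending a link (uses SNC DEN).
Proof: (1) the map `av c x ↦ av c (c_n + (ε/L) (x - c_n))` is continuous from `Conf (ap l L)` to
`Conf (ap l ε)` (SNC), its image is preconnected and dense (DEN), so `Conf (ap l ε)` is preconnected
(`IsPreconnected.subset_closure`). (2) forgetting the last vertex is continuous and onto `Conf l` (DEN). -/
def UPSStmt : Prop := ∀ (n : ℕ) (l : Fin n → ℝ), (∀ k, 0 < l k) →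
  (∀ ε L : ℝ, 0 < ε → ε ≤ L → IsPreconnected (Conf (ap l L)) → IsPreconnected (Conf (ap l ε))) ∧
  (∀ L : ℝ, 0 < L → IsPreconnected (Conf (ap l L)) → IsPreconnected (Conf l))

/-- THR. The theorem (uses SNC DEN LPC PTH FIN). Proof: `Conf (ap l 1)` is covered by finitely many
preconnected sets (FIN); choose a point `av c_t x_t` in every nonempty member `t`. For two members join
`c_t` to `c_t'` in `Conf l` (LPC) and take `δ` of PTH; let `ε₀ ≤ 1` be the minimum. For `ε < ε₀` let
`s (av c x) = av c (c_last + ε (x - c_last))`, continuous from `Conf (ap l 1)` to `Conf (ap l ε)`. The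
sets `s '' t` are preconnected, and their points `s (av c_t x_t)` are joined by preconnected subsets of
`Conf (ap l ε)` (PTH), so the union `D` of all these sets is preconnected. `D` is dense in
`Conf (ap l ε)`: for `av c x` take `y` near `x` by DEN, `av c (c_last + (1/ε) (y - c_last)) ∈ Conf (ap l 1)`
and `s` of it is `av c y`. -/
def THRStmt : Prop := ∀ (m : ℕ) (l : Fin (m + 1) → ℝ), (∀ k, 0 < l k) → IsPreconnected (Conf l) →
  ∃ ε₀ : ℝ, 0 < ε₀ ∧ ∀ ε : ℝ, 0 < ε → ε < ε₀ → IsPreconnected (Conf (ap l ε))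

/-- BAS. No link, one link. Proof: `Conf l` is everything for `n = 0`; for `n = 1` it is
`{v | dist (v 0) (v 1) = e}`, the image of `E3 × sphere 0 e` under `(x, u) ↦ (x, x + u)`
(`isPreconnected_sphere`). -/
def BASStmt : Prop := ∀ (l : Fin 0 → ℝ), IsPreconnected (Conf l) ∧
  ∀ e : ℝ, 0 < e → IsPreconnected (Conf (ap l e))

/-- REV. Reversal. Proof: `v ↦ fun k => v k.rev` is a homeomorphism which maps `Conf l` onto
`Conf (fun k => l k.rev)`: `Fin.rev_castSucc`, `Fin.rev_succ`, `dist_comm`, `segment_symm`; for `i < j`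
the pair `(j.rev, i.rev)`. Second part: `pr e l = fun k => ap (fun j => l j.rev) e k.rev`
(`Fin.lastCases`/`Fin.cases`). -/
def REVStmt : Prop := ∀ (n : ℕ),
  (∀ l : Fin n → ℝ, IsPreconnected (Conf (fun k => l k.rev)) ↔ IsPreconnected (Conf l)) ∧
  (∀ (l : Fin n → ℝ) (e : ℝ), IsPreconnected (Conf (pr e l)) ↔
    IsPreconnected (Conf (ap (fun k => l k.rev) e)))

/-- EXT. Unlocked chains with any number of links (uses BAS THR). Proof: induction on `n`: `n = 0, 1` BAS;
step: THR and a rational `ε` with `0 < ε < ε₀` (`exists_rat_btwn`), `Fin.snoc` of the rational lengths. -/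
def EXTStmt : Prop := ∀ n : ℕ, ∃ l : Fin n → ℚ, (∀ k, 0 < l k) ∧
  IsPreconnected (Conf (fun k => (l k : ℝ)))

/-- RES. Everything at both ends (uses UPS THR BAS REV EXT LPC). -/
def RESStmt : Prop :=
  (∀ (n : ℕ) (l : Fin n → ℝ), (∀ k, 0 < l k) → ¬ Locked l →
    ∃ ε₀ : ℝ, 0 < ε₀ ∧ ∀ ε : ℝ, 0 < ε → ε < ε₀ → ¬ Locked (ap l ε) ∧ ¬ Locked (pr ε l)) ∧
  (∀ (n : ℕ) (l : Fin n → ℝ), (∀ k, 0 < l k) → ∀ ε L : ℝ, 0 < ε → ε ≤ L →
    (Locked (ap l ε) → Locked (ap l L)) ∧ (Locked (pr ε l) → Locked (pr L l)) ∧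
    (Locked l → Locked (ap l L) ∧ Locked (pr L l))) ∧
  (∀ n : ℕ, ∃ l : Fin n → ℚ, (∀ k, 0 < l k) ∧ ¬ Locked (fun k => (l k : ℝ))) ∧
  (∀ (n : ℕ) (l : Fin n → ℝ), (∀ k, 0 < l k) → ¬ Locked l →
    ∀ c ∈ Conf l, ∀ c' ∈ Conf l, JoinedIn (Conf l) c c')

end Pool.Agent.LCK
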